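import Pool.Agent.W809.FKM.Stms
import Pool.Agent.W358.FKM.Walg

/-!
# FK-ARI: series arithmetic and `g(H) = Σ c_n e^{i n ω H}`
-/

set_option autoImplicit false

open scoped ComplexConjugate Topology
open Complex

namespace Pool.Agent.W358.FKM

open Pool.Agent.W809.FKM

theorem summable_pow_mul {c : ℤ → ℂ}
    (hc : ∀ k : ℕ, ∃ C : ℝ, ∀ n : ℤ, ‖c n‖ * (1 + |(n : ℝ)|) ^ k ≤ C) (N : ℕ) :
    Summable (fun n : ℤ => ‖c n‖ * (1 + |(n : ℝ)|) ^ N) := by
  obtain ⟨C, hC⟩ := hc (N + 2)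
  refine Summable.of_nonneg_of_le (fun n => by positivity) (fun n => ?_)
    (summable_int.mul_left C)
  have h1 : (1 : ℝ) ≤ 1 + |(n : ℝ)| := by linarith [abs_nonneg (n : ℝ)]
  have h0 : (0 : ℝ) < 1 + |(n : ℝ)| := by linarith
  have hC0 : 0 ≤ C := le_trans (by positivity) (hC n)
  have h2 : ((1 + |(n : ℝ)|) ^ 2)⁻¹ ≤ (1 + |(n : ℝ)|) ^ (-(3 / 2) : ℝ) := by
    have e : ((1 + |(n : ℝ)|) ^ 2)⁻¹ = (1 + |(n : ℝ)|) ^ (-2 : ℝ) := by
      rw [Real.rpow_neg h0.le]
      norm_num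
    rw [e]
    exact Real.rpow_le_rpow_of_exponent_le h1 (by norm_num)
  have h3 : ‖c n‖ * (1 + |(n : ℝ)|) ^ N ≤ C * ((1 + |(n : ℝ)|) ^ 2)⁻¹ := by
    rw [← div_eq_mul_inv, le_div_iff₀ (by positivity), mul_assoc, ← pow_add]
    exact hC n
  exact h3.trans (mul_le_mul_of_nonneg_left h2 hC0)

theorem ari : S_ARI := by
  intro c hc
  have hs0 : Summable (fun n => ‖c n‖) := by simpa using summable_pow_mul hc 0
  refine ⟨hs0, fun a κ ha hκ N => ?_⟩
  have hsN := summable_pow_mul hc N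
  set L : ℝ := 1 + 2 * (a + 1) / κ with hL
  have hL0 : 0 < L := by positivity
  set C1 : ℝ := (N.factorial : ℝ) * (2 / κ) ^ N * Real.exp (κ / 2) with hC1
  have hC10 : 0 ≤ C1 := by positivity
  have hsum : Summable (fun n : ℤ => C1 * ‖c n‖ + L ^ N * (‖c n‖ * (1 + |(n : ℝ)|) ^ N)) :=
    (hs0.mul_left C1).add (hsN.mul_left (L ^ N))
  refine ⟨∑' n : ℤ, (C1 * ‖c n‖ + L ^ N * (‖c n‖ * (1 + |(n : ℝ)|) ^ N)), fun ρ hρ => ?_⟩
  have h1ρ : 0 < 1 + ρ := by linarith
  have hterm : ∀ n : ℤ, ‖c n‖ * min 1 (Real.exp (a * |(n : ℝ)| - κ * ρ)) ≤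
      (C1 * ‖c n‖ + L ^ N * (‖c n‖ * (1 + |(n : ℝ)|) ^ N)) / (1 + ρ) ^ N := by
    intro n
    rw [le_div_iff₀ (by positivity)]
    rcases le_total (a * |(n : ℝ)|) (κ * ρ / 2) with h | h
    · have h2 : (1 + ρ) ^ N ≤ C1 * Real.exp (κ * ρ / 2) := by
        have h3 := Real.pow_div_factorial_le_exp (κ / 2 * (1 + ρ)) (by positivity) N
        rw [div_le_iff₀ (by positivity), mul_pow] at h3
        have h4 : (1 + ρ) ^ N = (2 / κ) ^ N * ((κ / 2) ^ N * (1 + ρ) ^ N) := by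
          rw [← mul_assoc, ← mul_pow]
          have : 2 / κ * (κ / 2) = 1 := by field_simp
          rw [this, one_pow, one_mul]
        have e : Real.exp (κ / 2 * (1 + ρ)) = Real.exp (κ / 2) * Real.exp (κ * ρ / 2) := by
          rw [← Real.exp_add]; congr 1; ring
        rw [h4, hC1]
        calc (2 / κ) ^ N * ((κ / 2) ^ N * (1 + ρ) ^ N)
            ≤ (2 / κ) ^ N * (Real.exp (κ / 2 * (1 + ρ)) * N.factorial) :=
              mul_le_mul_of_nonneg_left h3 (by positivity)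
          _ = _ := by rw [e]; ring
      have h5 : min 1 (Real.exp (a * |(n : ℝ)| - κ * ρ)) ≤ Real.exp (-(κ * ρ / 2)) :=
        (min_le_right _ _).trans (Real.exp_le_exp.mpr (by linarith))
      have h6 : Real.exp (-(κ * ρ / 2)) * (1 + ρ) ^ N ≤ C1 := by
        calc Real.exp (-(κ * ρ / 2)) * (1 + ρ) ^ N
            ≤ Real.exp (-(κ * ρ / 2)) * (C1 * Real.exp (κ * ρ / 2)) :=
              mul_le_mul_of_nonneg_left h2 (Real.exp_pos _).le
          _ = C1 * (Real.exp (-(κ * ρ / 2)) * Real.exp (κ * ρ / 2)) := by ring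
          _ = C1 := by rw [← Real.exp_add]; simp
      have h7 : ‖c n‖ * min 1 (Real.exp (a * |(n : ℝ)| - κ * ρ)) * (1 + ρ) ^ N ≤
          C1 * ‖c n‖ := by
        calc ‖c n‖ * min 1 (Real.exp (a * |(n : ℝ)| - κ * ρ)) * (1 + ρ) ^ N
            ≤ ‖c n‖ * Real.exp (-(κ * ρ / 2)) * (1 + ρ) ^ N :=
              mul_le_mul_of_nonneg_right (mul_le_mul_of_nonneg_left h5 (norm_nonneg _))
                (by positivity)
          _ = ‖c n‖ * (Real.exp (-(κ * ρ / 2)) * (1 + ρ) ^ N) := by ring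
          _ ≤ ‖c n‖ * C1 := mul_le_mul_of_nonneg_left h6 (norm_nonneg _)
          _ = _ := by ring
      have h8 : (0 : ℝ) ≤ L ^ N * (‖c n‖ * (1 + |(n : ℝ)|) ^ N) := by positivity
      linarith
    · have h2 : 1 + ρ ≤ L * (1 + |(n : ℝ)|) := by
        have h3 : ρ ≤ 2 * (a + 1) / κ * |(n : ℝ)| := by
          rw [div_mul_eq_mul_div, le_div_iff₀ hκ]
          nlinarith [abs_nonneg (n : ℝ)]
        have h4 : 0 ≤ 2 * (a + 1) / κ := by positivity
        rw [hL]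
        nlinarith [abs_nonneg (n : ℝ)]
      have h3 : (1 + ρ) ^ N ≤ L ^ N * (1 + |(n : ℝ)|) ^ N := by
        rw [← mul_pow]
        exact pow_le_pow_left₀ h1ρ.le h2 N
      have h4 : ‖c n‖ * min 1 (Real.exp (a * |(n : ℝ)| - κ * ρ)) ≤ ‖c n‖ :=
        mul_le_of_le_one_right (norm_nonneg _) (min_le_left _ _)
      have h5 : ‖c n‖ * min 1 (Real.exp (a * |(n : ℝ)| - κ * ρ)) * (1 + ρ) ^ N ≤
          ‖c n‖ * (L ^ N * (1 + |(n : ℝ)|) ^ N) :=
        mul_le_mul h4 h3 (by positivity) (norm_nonneg _)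
      have h6 : 0 ≤ C1 * ‖c n‖ := by positivity
      linarith
  have hsum2 : Summable (fun n : ℤ => ‖c n‖ * min 1 (Real.exp (a * |(n : ℝ)| - κ * ρ))) :=
    Summable.of_nonneg_of_le (fun n => by positivity) hterm (hsum.div_const _)
  rw [← tsum_div_const]
  exact hsum2.tsum_le_tsum hterm (hsum.div_const _)

theorem fcfc : S_FCFC := by
  intro E _ _ _ H g r c hH hg hr hHr hc hsum
  have hn : IsStarNormal H := hH.isStarNormal
  set ω : ℂ := (Real.pi / (2 * r) : ℂ) with hω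
  set F : ℤ → ℂ → ℂ := fun n z => c n * exp (I * (n * ω) * z) with hF
  have hFc : ∀ n, Continuous (F n) := fun n => by rw [hF]; fun_prop
  -- the spectrum
  have hsp : ∀ z ∈ spectrum ℂ H, z = (z.re : ℂ) ∧ |z.re| ≤ r := by
    intro z hz
    have h1 := hH.mem_spectrum_eq_re hz
    refine ⟨h1, ?_⟩
    have h2 := spectrum.norm_le_norm_mul_of_mem hz
    have h3 : ‖(1 : E →L[ℂ] E)‖ ≤ 1 := ContinuousLinearMap.norm_id_le
    have h4 : ‖H‖ * ‖(1 : E →L[ℂ] E)‖ ≤ r :=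
      (mul_le_of_le_one_right (norm_nonneg _) h3).trans hHr
    exact (Complex.abs_re_le_norm z).trans (h2.trans h4)
  have hbd : ∀ n, ∀ z ∈ spectrum ℂ H, ‖F n z‖ ≤ ‖c n‖ := by
    intro n z hz
    rw [hF]
    dsimp only
    rw [norm_mul, (hsp z hz).1]
    have e : I * (n * ω) * ((z.re : ℝ) : ℂ) = ((n * (Real.pi / (2 * r)) * z.re : ℝ) : ℂ) * I := by
      rw [hω]; push_cast; ring
    rw [e, Complex.norm_exp_ofReal_mul_I, mul_one]
  have hunif := tendstoUniformlyOn_tsum (f := F) hc hbd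
  have h1 := tendsto_cfc_fun (R := ℂ) (a := H) hunif
    (Filter.Eventually.of_forall fun s => (continuous_finsetSum s fun n _ => hFc n).continuousOn)
  have e1 : cfc (fun z => ∑' n, F n z) H = cfc g H := by
    rw [cfc_real_eq_complex g hH]
    refine cfc_congr fun z hz => ?_
    have h2 := hsum z.re (hsp z hz).2
    have h3 : (∑' n, F n z) = (g z.re : ℂ) := by
      rw [← h2.tsum_eq]
      refine tsum_congr fun n => ?_
      rw [hF]
      dsimp only
      conv_lhs => rw [(hsp z hz).1]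
      rw [hω, mul_assoc]
    exact h3
  have e2 : ∀ s : Finset ℤ, cfc (fun z => ∑ n ∈ s, F n z) H =
      ∑ n ∈ s, c n • NormedSpace.exp ((I * (n * (Real.pi / (2 * r)) : ℂ)) • H) := by
    intro s
    have h2 : (fun z => ∑ n ∈ s, F n z) = ∑ n ∈ s, F n := by
      funext z
      rw [Finset.sum_apply]
    rw [h2, cfc_sum F H s (fun n _ => (hFc n).continuousOn)]
    refine Finset.sum_congr rfl fun n _ => ?_
    rw [hF]
    dsimp only
    rw [cfc_const_mul (c n) (fun z => exp (I * (n * ω) * z)) H (by fun_prop)]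
    congr 1
    have h3 := cfc_comp_const_mul (R := ℂ) (I * (n * ω)) (exp : ℂ → ℂ) H
      (Complex.continuous_exp.continuousOn) hn
    rw [h3]
    have h4 : IsStarNormal ((I * (n * ω)) • H) := by
      refine ⟨?_⟩
      rw [star_smul, hH.star_eq]
      exact (Commute.refl H).smul_left _ |>.smul_right _
    rw [Complex.exp_eq_exp_ℂ]
    exact CFC.exp_eq_normedSpace_exp (𝕜 := ℂ) h4
  rw [e1] at h1
  simp only [e2] at h1
  exact h1

end Pool.Agent.W358.FKM
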