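import Pool.Agent.W809.FKM.Stms

/-!
# FK-CPT, FK-COMM, FK-SVC: compactness
-/

set_option autoImplicit false

open scoped ComplexConjugate Topology
open Complex

namespace Pool.Agent.W358.FKM

open Pool.Agent.W809.FKM


variable {m : ℕ}

theorem cpt_sum {E ι : Type} [NormedAddCommGroup E] [InnerProductSpace ℂ E] [CompleteSpace E]
    (s : Finset ι) (f : ι → E →L[ℂ] E) (h : ∀ i ∈ s, IsCompactOperator (f i)) :
    IsCompactOperator (∑ i ∈ s, f i : E →L[ℂ] E) := by
  classical
  induction s using Finset.induction_on with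
  | empty => rw [Finset.sum_empty]; exact cpt_zero
  | insert i s hi ih =>
    rw [Finset.sum_insert hi]
    exact cpt_add (h i (Finset.mem_insert_self _ _))
      (ih fun j hj => h j (Finset.mem_insert_of_mem hj))

theorem cpt_fin (B : Op m) {S : Set Pool.Agent.W809.FKM.Lat} (hS : S.Finite) :
    IsCompactOperator (B * Lam S : Op m) := by
  classical
  have e : (B * Lam S : Op m) = ∑ y ∈ hS.toFinset, ((B ∘L sgL y) ∘L ev y) := by
    refine op_ext fun z v => ?_
    rw [_root_.sum_apply]
    change B (Lam S (sg z v)) = ∑ y ∈ hS.toFinset, B (sg y ((sg z v) y))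
    by_cases hz : z ∈ S
    · rw [Lam_sg_mem hz, Finset.sum_eq_single z]
      · rw [sg_self]
      · intro y _ hy
        rw [sg_ne v hy, sg_zero, map_zero]
      · intro h
        exact absurd (hS.mem_toFinset.mpr hz) h
    · rw [Lam_sg_notMem hz, map_zero, Finset.sum_eq_zero]
      intro y hy
      have hyz : y ≠ z := fun h => hz (h ▸ hS.mem_toFinset.mp hy)
      rw [sg_ne v hyz, sg_zero, map_zero]
  rw [e]
  refine cpt_sum _ _ fun y _ => ?_
  have h1 : IsCompactOperator (ev y : HS m →L[ℂ] Vm m) :=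
    isCompactOperator_of_locallyCompactSpace_dom _
  exact h1.clm_comp (B ∘L sgL y)

theorem mul_compl (X : Op m) (S : Set Pool.Agent.W809.FKM.Lat) : X * Lam Sᶜ = X - X * Lam S := by
  rw [Lam_compl, mul_sub, mul_one]

theorem cpt (hSch : S_SCHUR) : S_CPT := by
  intro m B hB hε
  obtain ⟨b, hb0, hb, hbk⟩ := hB
  have hpos : ∀ n : ℕ, (0 : ℝ) < 1 / ((n : ℝ) + 1) := fun n => by positivity
  choose r hr using fun n : ℕ => hε (1 / ((n : ℝ) + 1)) (hpos n)
  set S : ℕ → Set Pool.Agent.W809.FKM.Lat := fun n => {y | ‖pt y‖ ≤ r n} with hS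
  have hbd : ∀ n, ‖B * Lam (S n) - B‖ ≤ ∑' z, min (b z) (1 / ((n : ℝ) + 1)) := by
    intro n
    have e1 : B * Lam (S n) - B = -(B * Lam (S n)ᶜ) := by rw [mul_compl]; abel
    rw [e1, norm_neg]
    refine hSch m _ (fun z => min (b z) (1 / ((n : ℝ) + 1))) (fun z => le_min (hb0 z) (hpos n).le)
      (Summable.of_nonneg_of_le (fun z => le_min (hb0 z) (hpos n).le)
        (fun z => min_le_left _ _) hb) ?_
    intro x y v
    change ‖(B (Lam (S n)ᶜ (sg y v))) x‖ ≤ _
    by_cases hy : y ∈ S n
    · rw [Lam_sg_notMem (by simpa using hy), map_zero, zero_app, norm_zero]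
      exact mul_nonneg (le_min (hb0 _) (hpos n).le) (norm_nonneg _)
    · rw [Lam_sg_mem (by simpa using hy)]
      have hy' : r n ≤ ‖pt y‖ := by
        rw [hS] at hy
        exact (not_le.mp hy).le
      have h1 := hbk x y v
      have h2 := (norm_app_le (B (sg y v)) x).trans (hr n y hy' v)
      rcases min_choice (b (x - y)) (1 / ((n : ℝ) + 1)) with h | h
      · dsimp only; rw [h]; exact h1
      · dsimp only; rw [h]; exact h2
  have hlim : Filter.Tendsto (fun n : ℕ => ∑' z, min (b z) (1 / ((n : ℝ) + 1))) Filter.atTop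
      (𝓝 (∑' _ : Pool.Agent.W809.FKM.Lat, (0 : ℝ))) := by
    refine tendsto_tsum_of_dominated_convergence hb ?_ ?_
    · intro z
      have h1 : Filter.Tendsto (fun n : ℕ => min (b z) (1 / ((n : ℝ) + 1))) Filter.atTop
          (𝓝 (min (b z) 0)) :=
        tendsto_const_nhds.min tendsto_one_div_add_atTop_nhds_zero_nat
      rwa [min_eq_right (hb0 z)] at h1
    · refine Filter.Eventually.of_forall fun n z => ?_
      rw [Real.norm_of_nonneg (le_min (hb0 z) (hpos n).le)]
      exact min_le_left _ _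
  rw [tsum_zero] at hlim
  have ht : Filter.Tendsto (fun n => B * Lam (S n)) Filter.atTop (𝓝 B) :=
    tendsto_iff_norm_sub_tendsto_zero.mpr
      (squeeze_zero (fun n => norm_nonneg _) hbd hlim)
  exact isClosed_cpt.mem_of_tendsto ht
    (Filter.Eventually.of_forall fun n => cpt_fin B (finite_ball (r n)))

/-- tails of summable functions on the lattice -/
theorem tail_tendsto {b : Pool.Agent.W809.FKM.Lat → ℝ} (hb0 : ∀ z, 0 ≤ b z) (hb : Summable b) :
    Filter.Tendsto (fun n : ℕ => ∑' z, (if (n : ℝ) + 1 < ‖pt z‖ then b z else 0)) Filter.atTop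
      (𝓝 0) := by
  have hlim : Filter.Tendsto (fun n : ℕ => ∑' z, (if (n : ℝ) + 1 < ‖pt z‖ then b z else 0))
      Filter.atTop (𝓝 (∑' _ : Pool.Agent.W809.FKM.Lat, (0 : ℝ))) := by
    refine tendsto_tsum_of_dominated_convergence hb ?_ ?_
    · intro z
      refine Filter.Tendsto.congr' ?_ tendsto_const_nhds
      obtain ⟨N, hN⟩ := exists_nat_ge ‖pt z‖
      filter_upwards [Filter.eventually_ge_atTop N] with n hn
      have h1 : (N : ℝ) ≤ n := by exact_mod_cast hn
      rw [if_neg (by linarith)]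
    · refine Filter.Eventually.of_forall fun n z => ?_
      split_ifs
      · rw [Real.norm_of_nonneg (hb0 z)]
      · rw [norm_zero]; exact hb0 z
  rwa [tsum_zero] at hlim

theorem comm1 (hSch : S_SCHUR) : S_COMM1 := by
  intro m B R hB hc
  obtain ⟨b, hb0, hb, hbk⟩ := hB
  set X : Op m := B * Lam R - Lam R * B with hX
  have hcX : ∀ n : ℕ, IsCompactOperator (X * Lam (Sr R ((n : ℝ) + 1)) : Op m) := by
    intro n
    have h1 := hc ((n : ℝ) + 1) (by positivity)
    have e : X * Lam (Sr R ((n : ℝ) + 1)) =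
        B * Lam (Sr R ((n : ℝ) + 1)) * Lam R - Lam R * (B * Lam (Sr R ((n : ℝ) + 1))) := by
      rw [hX, sub_mul, mul_assoc B (Lam R), Lam_comm R, ← mul_assoc B, mul_assoc (Lam R) B]
    rw [e]
    exact cpt_sub (cpt_mul_right _ h1) (cpt_mul_left _ h1)
  have hbd : ∀ n : ℕ, ‖X * Lam (Sr R ((n : ℝ) + 1)) - X‖ ≤
      ∑' z, (if (n : ℝ) + 1 < ‖pt z‖ then b z else 0) := by
    intro n
    have e1 : X * Lam (Sr R ((n : ℝ) + 1)) - X = -(X * Lam (Sr R ((n : ℝ) + 1))ᶜ) := by
      rw [mul_compl]; abel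
    have hnn : ∀ z, 0 ≤ (if (n : ℝ) + 1 < ‖pt z‖ then b z else 0) := fun z => by
      split_ifs
      · exact hb0 z
      · exact le_rfl
    rw [e1, norm_neg]
    refine hSch m _ (fun z => if (n : ℝ) + 1 < ‖pt z‖ then b z else 0) hnn
      (Summable.of_nonneg_of_le hnn (fun z => by split_ifs <;> simp [hb0 z]) hb) ?_
    intro x y v
    change ‖(X (Lam (Sr R ((n : ℝ) + 1))ᶜ (sg y v))) x‖ ≤ _
    by_cases hy : y ∈ Sr R ((n : ℝ) + 1)
    · rw [Lam_sg_notMem (by simpa using hy), map_zero, zero_app, norm_zero]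
      exact mul_nonneg (hnn _) (norm_nonneg _)
    · rw [Lam_sg_mem (by simpa using hy)]
      have hfar : (y ∈ R ↔ x ∉ R) → (n : ℝ) + 1 < ‖pt (x - y)‖ := by
        intro h
        by_contra hcon
        apply hy
        refine ⟨x, ?_, h⟩
        rw [dst_comm, dst_eq]
        exact not_lt.mp hcon
      have e2 : (X (sg y v)) x = (B (Lam R (sg y v))) x - (Lam R (B (sg y v))) x := rfl
      rw [e2, Lam_app]
      dsimp only
      by_cases hyR : y ∈ R
      · rw [Lam_sg_mem hyR]
        by_cases hxR : x ∈ R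
        · rw [Set.indicator_of_mem hxR, sub_self, norm_zero]
          exact mul_nonneg (hnn _) (norm_nonneg _)
        · rw [Set.indicator_of_notMem hxR, sub_zero, if_pos (hfar (by tauto))]
          exact hbk x y v
      · rw [Lam_sg_notMem hyR, map_zero, zero_app, zero_sub, norm_neg]
        by_cases hxR : x ∈ R
        · rw [Set.indicator_of_mem hxR, if_pos (hfar (by tauto))]
          exact hbk x y v
        · rw [Set.indicator_of_notMem hxR, norm_zero]
          exact mul_nonneg (hnn _) (norm_nonneg _)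
  have ht : Filter.Tendsto (fun n : ℕ => X * Lam (Sr R ((n : ℝ) + 1))) Filter.atTop (𝓝 X) :=
    tendsto_iff_norm_sub_tendsto_zero.mpr
      (squeeze_zero (fun n => norm_nonneg _) hbd (tail_tendsto hb0 hb))
  exact isClosed_cpt.mem_of_tendsto ht (Filter.Eventually.of_forall hcX)

theorem comm2 (h2 : S_COMM1) (h3 : S_WALG) : S_COMM2 := by
  intro m A R hA hc
  obtain ⟨hmul, hadd, hstar, hsmul, hM⟩ := h3 m
  have hone : Wi (1 : Op m) := by
    rw [← M_one]
    exact hM _ 1 (fun _ => by simp)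
  have hpow : ∀ n : ℕ, Wi (A ^ n) := by
    intro n
    induction n with
    | zero => exact hone
    | succ n ih => rw [pow_succ]; exact hmul _ _ ih hA
  have hBn : ∀ n : ℕ, IsCompactOperator ((A ^ (n + 1) - A) * Lam R -
      Lam R * (A ^ (n + 1) - A) : Op m) := by
    intro n
    refine h2 m _ R ?_ ?_
    · rw [sub_eq_add_neg, ← neg_one_smul ℂ A]
      exact hadd _ _ (hpow _) (hsmul _ _ hA)
    · intro r hr
      have e : (A ^ (n + 1) - A) * Lam (Sr R r) =
          (∑ i ∈ Finset.range n, A ^ i) * ((A * A - A) * Lam (Sr R r)) := by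
        rw [← mul_assoc]
        congr 1
        have h := geom_sum_mul A n
        have e2 : A * A - A = (A - 1) * A := by rw [sub_mul, one_mul]
        rw [e2, ← mul_assoc, h, sub_mul, one_mul, pow_succ]
      rw [e]
      exact cpt_mul_left _ (hc r hr)
  set c : ℕ → ℂ := fun n => (Nat.factorial n : ℂ)⁻¹ * (2 * (Real.pi : ℂ) * I) ^ n with hcdef
  have hc1 : HasSum c 1 := by
    have h := NormedSpace.exp_series_hasSum_exp' (𝕂 := ℂ) (2 * (Real.pi : ℂ) * I)
    rw [← Complex.exp_eq_exp_ℂ, Complex.exp_two_pi_mul_I] at h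
    simpa [hcdef, smul_eq_mul] using h
  have hs : HasSum (fun n => c n • (A ^ n - A)) (eA A - A) := by
    have h := (eA_hasSum A).sub (hc1.smul_const A)
    rw [one_smul] at h
    have e : (fun n => c n • (A ^ n - A)) = fun n : ℕ =>
        ((Nat.factorial n : ℂ)⁻¹ * (2 * (Real.pi : ℂ) * I) ^ n) • A ^ n - c n • A := by
      funext n
      rw [smul_sub]
    rw [e]
    exact h
  have hs1 : HasSum (fun n => c (n + 1) • (A ^ (n + 1) - A)) (eA A - 1) := by
    have h := (hasSum_nat_add_iff' (f := fun n => c n • (A ^ n - A)) 1).mpr hs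
    have e : eA A - A - ∑ i ∈ Finset.range 1, c i • (A ^ i - A) = eA A - 1 := by
      rw [Finset.sum_range_one]
      simp [hcdef]
    rwa [e] at h
  have hcomm : HasSum (fun n => c (n + 1) • ((A ^ (n + 1) - A) * Lam R -
      Lam R * (A ^ (n + 1) - A))) (eA A * Lam R - Lam R * eA A) := by
    have h := (hs1.mul_right (Lam R)).sub (hs1.mul_left (Lam R))
    have e : (eA A - 1) * Lam R - Lam R * (eA A - 1) = eA A * Lam R - Lam R * eA A := by
      noncomm_ring
    rw [e] at h
    have e2 : (fun n => c (n + 1) • ((A ^ (n + 1) - A) * Lam R -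
      Lam R * (A ^ (n + 1) - A))) = fun n => c (n + 1) • (A ^ (n + 1) - A) * Lam R -
        Lam R * (c (n + 1) • (A ^ (n + 1) - A)) := by
      funext n
      rw [smul_sub, smul_mul_assoc, mul_smul_comm]
    rw [e2]
    exact h
  exact isClosed_cpt.mem_of_tendsto hcomm (Filter.Eventually.of_forall fun s =>
    cpt_sum s _ fun n _ => cpt_smul _ (hBn n))

theorem svc (h1 : S_WALG) (h2 : S_CPT) (h3 : S_TAIL) : S_SVC := by
  intro m B f C hB hf hfC
  obtain ⟨hmul, hadd, hstar, hsmul, hM⟩ := h1 m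
  have hC : 0 ≤ C := (norm_nonneg _).trans (hfC 0)
  refine h2 m _ ?_ ?_
  · rw [sub_eq_add_neg, ← neg_one_smul ℂ (M f * B)]
    exact hadd _ _ (hmul _ _ hB (hM f C hfC)) (hsmul _ _ (hmul _ _ (hM f C hfC) hB))
  · obtain ⟨CB, t, hCB, ht0, ht, hD⟩ := h3 m B hB
    intro ε hε
    have hev : ∀ᶠ ρ in Filter.atTop, 2 * C * t ρ < ε / 2 := by
      have h4 : Filter.Tendsto (fun ρ => 2 * C * t ρ) Filter.atTop (𝓝 (2 * C * 0)) :=
        ht.const_mul _
      rw [mul_zero] at h4
      exact h4.eventually_lt_const (by positivity)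
    obtain ⟨ρ, hρ, hρ0⟩ := (hev.and (Filter.eventually_gt_atTop 0)).exists
    obtain ⟨n, hn⟩ := hf ρ (ε / (2 * (CB + 1))) hρ0 (by positivity)
    refine ⟨n, fun y hy v => ?_⟩
    have hD1 : ∀ x, ‖f x - f y‖ ≤ 2 * C := fun x => by
      refine (norm_sub_le _ _).trans ?_
      have := hfC x
      have := hfC y
      linarith
    have e : (B * M f - M f * B : Op m) (sg y v) = -(M (fun x => f x - f y) (B (sg y v))) := by
      refine HS.ext fun x => ?_
      rw [neg_app, M_app hD1]
      change (B (M f (sg y v))) x - (M f (B (sg y v))) x = _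
      rw [M_sg hfC, map_smul, smul_app, M_app hfC, sub_smul]
      abel
    rw [e, norm_neg]
    refine (hD (M (fun x => f x - f y)) y ρ (ε / (2 * (CB + 1))) (by positivity) ?_ v).trans ?_
    · intro x hx w
      rw [M_sg hD1, norm_smul, norm_sg]
      refine mul_le_mul_of_nonneg_right ?_ (norm_nonneg _)
      rw [norm_sub_rev]
      exact hn y x hy hx
    · refine mul_le_mul_of_nonneg_right ?_ (norm_nonneg _)
      have h5 : ‖(M (fun x => f x - f y) : Op m)‖ * t ρ ≤ 2 * C * t ρ :=
        mul_le_mul_of_nonneg_right (norm_M_le hD1) (ht0 ρ)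
      have h6 : CB * (ε / (2 * (CB + 1))) ≤ ε / 2 := by
        rw [mul_div_assoc', div_le_div_iff₀ (by positivity) (by norm_num)]
        nlinarith
      linarith

end Pool.Agent.W358.FKM
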