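import Pool.Agent.W809.FKM.Stms
import Pool.Agent.W358.FKM.Ari

/-!
# FK-FOUR: a smooth function as a Fourier series with rapidly decaying coefficients
-/

set_option autoImplicit false

open scoped ComplexConjugate Topology SchwartzMap FourierTransform
open Complex

namespace Pool.Agent.W358.FKM

open Pool.Agent.W809.FKM

theorem four : S_FOUR := by
  intro g r hg hr
  set χ : ContDiffBump (0 : ℝ) := ⟨r, 2 * r, hr, by linarith⟩ with hχ
  have hχ1 : ∀ t : ℝ, |t| ≤ r → χ t = 1 := fun t ht => by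
    refine χ.one_of_mem_closedBall ?_
    rw [Metric.mem_closedBall, Real.dist_eq, sub_zero]
    exact ht
  have hχ0 : ∀ t : ℝ, 2 * r ≤ |t| → χ t = 0 := fun t ht => by
    refine χ.zero_of_le_dist ?_
    rw [Real.dist_eq, sub_zero]
    exact ht
  set f : ℝ → ℂ := fun x => ((g (4 * r * x) * χ (4 * r * x) : ℝ) : ℂ) with hf
  have hf0 : ∀ x : ℝ, 1 / 2 ≤ |x| → f x = 0 := by
    intro x hx
    rw [hf]
    dsimp only
    rw [hχ0, mul_zero, Complex.ofReal_zero]
    rw [abs_mul, abs_of_pos (show (0 : ℝ) < 4 * r by positivity)]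
    nlinarith
  have hcs : HasCompactSupport f := by
    refine HasCompactSupport.of_support_subset_isCompact (isCompact_closedBall (0 : ℝ) (1 / 2)) ?_
    intro x hx
    rw [Metric.mem_closedBall, Real.dist_eq, sub_zero]
    by_contra h
    exact hx (hf0 x (not_le.mp h).le)
  have hsm : ContDiff ℝ (⊤ : ℕ∞) f := by
    have h1 : ContDiff ℝ (⊤ : ℕ∞) (fun x : ℝ => 4 * r * x) := contDiff_const.mul contDiff_id
    have h2 : ContDiff ℝ (⊤ : ℕ∞) (fun x : ℝ => g (4 * r * x) * χ (4 * r * x)) :=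
      (hg.comp h1).mul ((χ.contDiff).comp h1)
    exact Complex.ofRealCLM.contDiff.comp h2
  set F : 𝓢(ℝ, ℂ) := hcs.toSchwartzMap hsm with hF
  have hFf : ∀ x, F x = f x := fun x => rfl
  set c : ℤ → ℂ := fun n => (𝓕 F : 𝓢(ℝ, ℂ)) (n : ℝ) with hc
  have hdec : ∀ k : ℕ, ∃ C : ℝ, ∀ n : ℤ, ‖c n‖ * (1 + |(n : ℝ)|) ^ k ≤ C := by
    intro k
    obtain ⟨C0, hC0, h0⟩ := (𝓕 F : 𝓢(ℝ, ℂ)).decay 0 0
    obtain ⟨C1, hC1, h1⟩ := (𝓕 F : 𝓢(ℝ, ℂ)).decay k 0
    refine ⟨2 ^ k * (C0 + C1), fun n => ?_⟩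
    have a0 := h0 (n : ℝ)
    have a1 := h1 (n : ℝ)
    rw [norm_iteratedFDeriv_zero] at a0 a1
    rw [pow_zero, one_mul] at a0
    rw [Real.norm_eq_abs] at a1
    have h2 : (1 + |(n : ℝ)|) ^ k ≤ 2 ^ k * (1 + |(n : ℝ)| ^ k) := by
      rcases le_total |(n : ℝ)| 1 with h | h
      · calc (1 + |(n : ℝ)|) ^ k ≤ 2 ^ k := pow_le_pow_left₀ (by positivity) (by linarith) k
          _ ≤ 2 ^ k * (1 + |(n : ℝ)| ^ k) := le_mul_of_one_le_right (by positivity)
              (by linarith [pow_nonneg (abs_nonneg (n : ℝ)) k])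
      · calc (1 + |(n : ℝ)|) ^ k ≤ (2 * |(n : ℝ)|) ^ k :=
              pow_le_pow_left₀ (by positivity) (by linarith) k
          _ = 2 ^ k * |(n : ℝ)| ^ k := mul_pow _ _ _
          _ ≤ _ := mul_le_mul_of_nonneg_left (by linarith) (by positivity)
    calc ‖c n‖ * (1 + |(n : ℝ)|) ^ k ≤ ‖c n‖ * (2 ^ k * (1 + |(n : ℝ)| ^ k)) :=
          mul_le_mul_of_nonneg_left h2 (norm_nonneg _)
      _ = 2 ^ k * (‖c n‖ + |(n : ℝ)| ^ k * ‖c n‖) := by ring
      _ ≤ 2 ^ k * (C0 + C1) := mul_le_mul_of_nonneg_left (add_le_add a0 a1) (by positivity)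
  refine ⟨c, hdec, fun t ht => ?_⟩
  have hsum : Summable (fun n => ‖c n‖) := by simpa using summable_pow_mul hdec 0
  have hS : Summable (fun n : ℤ => c n * exp (I * (n * (Real.pi / (2 * r)) * t))) := by
    refine Summable.of_norm_bounded hsum fun n => ?_
    have e : I * (n * (Real.pi / (2 * r)) * t) = ((n * (Real.pi / (2 * r)) * t : ℝ) : ℂ) * I := by
      push_cast; ring
    rw [norm_mul, e, Complex.norm_exp_ofReal_mul_I, mul_one]
  have hP := SchwartzMap.tsum_eq_tsum_fourier F (t / (4 * r))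
  have hL : (∑' n : ℤ, F (t / (4 * r) + n)) = (g t : ℂ) := by
    rw [tsum_eq_single 0]
    · rw [hFf, hf]
      dsimp only
      have e : 4 * r * (t / (4 * r) + ((0 : ℤ) : ℝ)) = t := by
        rw [Int.cast_zero, add_zero]
        field_simp
      rw [e, hχ1 t ht, mul_one]
    · intro n hn
      rw [hFf]
      apply hf0
      have h1 : (1 : ℝ) ≤ |(n : ℝ)| := by exact_mod_cast Int.one_le_abs hn
      have h2 : |t / (4 * r)| ≤ 1 / 4 := by
        rw [abs_div, abs_of_pos (show (0 : ℝ) < 4 * r by positivity), div_le_iff₀ (by positivity)]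
        linarith
      have h3 := abs_sub_abs_le_abs_sub (n : ℝ) (-(t / (4 * r)))
      rw [sub_neg_eq_add, abs_neg, add_comm (n : ℝ)] at h3
      linarith
  have hR : (∑' n : ℤ, c n * exp (I * (n * (Real.pi / (2 * r)) * t))) = (g t : ℂ) := by
    rw [← hL, hP]
    refine tsum_congr fun n => ?_
    rw [fourier_coe_apply]
    congr 2
    push_cast
    have : (r : ℂ) ≠ 0 := by exact_mod_cast hr.ne'
    field_simp
    ring
  rw [← hR]
  exact hS.hasSum

end Pool.Agent.W358.FKM
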