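import Pool.Agent.W809.FKM.Stms

/-!
# FK-NID: nuclear operators form a *-ideal
-/

set_option autoImplicit false
set_option linter.unusedSectionVars false

open scoped ComplexConjugate Topology
open Complex

namespace Pool.Agent.W358.FKM

open Pool.Agent.W809.FKM

section

variable {E : Type} [NormedAddCommGroup E] [InnerProductSpace ℂ E] [CompleteSpace E]

/-- rank one operators `x ↦ ⟨ψ, x⟩ φ` -/
noncomputable def rk (ψ φ : E) : E →L[ℂ] E := (innerSL ℂ ψ).smulRight φ

theorem rk_apply (ψ φ x : E) : rk ψ φ x = inner ℂ ψ x • φ := by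
  simp [rk]

theorem norm_rk_le (ψ φ : E) : ‖rk ψ φ‖ ≤ ‖φ‖ * ‖ψ‖ := by
  refine ContinuousLinearMap.opNorm_le_bound _ (by positivity) fun x => ?_
  rw [rk_apply, norm_smul]
  calc ‖inner ℂ ψ x‖ * ‖φ‖ ≤ (‖ψ‖ * ‖x‖) * ‖φ‖ :=
        mul_le_mul_of_nonneg_right (norm_inner_le_norm _ _) (norm_nonneg _)
    _ = _ := by ring

theorem star_rk (ψ φ : E) : star (rk ψ φ) = rk φ ψ := by
  refine ContinuousLinearMap.ext fun x => ext_inner_left ℂ fun y => ?_
  rw [ContinuousLinearMap.star_eq_adjoint, ContinuousLinearMap.adjoint_inner_right, rk_apply,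
    rk_apply, inner_smul_left, inner_smul_right, inner_conj_symm, mul_comm]

theorem cpt_rk (ψ φ : E) : IsCompactOperator (rk ψ φ : E →L[ℂ] E) := by
  have h1 : IsCompactOperator (innerSL ℂ ψ : E →L[ℂ] ℂ) :=
    isCompactOperator_of_locallyCompactSpace_dom _
  have h2 := h1.clm_comp ((1 : ℂ →L[ℂ] ℂ).smulRight φ)
  have e : (((1 : ℂ →L[ℂ] ℂ).smulRight φ : ℂ →L[ℂ] E) ∘ (innerSL ℂ ψ : E →L[ℂ] ℂ)) =
      (rk ψ φ : E → E) := by
    funext x
    simp [rk]
  rwa [e] at h2

/-- a nuclear operator is the norm sum of its rank one parts -/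
theorem nuc_hasSum {ι : Type} {φ ψ : ι → E} {K : E →L[ℂ] E}
    (hs : Summable (fun j => ‖φ j‖ * ‖ψ j‖))
    (h : ∀ x, HasSum (fun j => inner ℂ (ψ j) x • φ j) (K x)) :
    HasSum (fun j => rk (ψ j) (φ j)) K := by
  have h1 : Summable (fun j => rk (ψ j) (φ j)) :=
    Summable.of_norm_bounded hs fun j => norm_rk_le _ _
  have h2 := h1.hasSum
  suffices e : (∑' j, rk (ψ j) (φ j)) = K by rwa [e] at h2
  refine ContinuousLinearMap.ext fun x => ?_
  have h3 := h2.mapL (ContinuousLinearMap.apply ℂ E x)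
  have h4 : HasSum (fun j => inner ℂ (ψ j) x • φ j) ((∑' j, rk (ψ j) (φ j)) x) := by
    have e : (fun j => inner ℂ (ψ j) x • φ j) = fun j => rk (ψ j) (φ j) x := by
      funext j
      rw [rk_apply]
    rw [e]
    exact h3
  exact h4.unique (h x)

theorem cpt_sum' {ι : Type} (s : Finset ι) (f : ι → E →L[ℂ] E)
    (h : ∀ i ∈ s, IsCompactOperator (f i)) : IsCompactOperator (∑ i ∈ s, f i : E →L[ℂ] E) := by
  classical
  induction s using Finset.induction_on with
  | empty => rw [Finset.sum_empty]; exact cpt_zero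
  | insert i s hi ih =>
    rw [Finset.sum_insert hi]
    exact cpt_add (h i (Finset.mem_insert_self _ _))
      (ih fun j hj => h j (Finset.mem_insert_of_mem hj))

end

theorem nid : S_NID := by
  intro E _ _ _
  refine ⟨?_, ?_, ?_, ?_, ?_, ?_⟩
  · rintro K A ⟨ι, φ, ψ, hs, h⟩
    refine ⟨ι, fun j => A (φ j), ψ, ?_, fun x => ?_⟩
    · refine Summable.of_nonneg_of_le (fun j => by positivity) (fun j => ?_) (hs.mul_left ‖A‖)
      rw [← mul_assoc]
      exact mul_le_mul_of_nonneg_right (A.le_opNorm _) (norm_nonneg _)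
    · have h1 := (h x).mapL A
      simp only [map_smul] at h1
      exact h1
  · rintro K A ⟨ι, φ, ψ, hs, h⟩
    refine ⟨ι, φ, fun j => star A (ψ j), ?_, fun x => ?_⟩
    · refine Summable.of_nonneg_of_le (fun j => by positivity) (fun j => ?_)
        (hs.mul_left ‖star A‖)
      calc ‖φ j‖ * ‖star A (ψ j)‖ ≤ ‖φ j‖ * (‖star A‖ * ‖ψ j‖) :=
            mul_le_mul_of_nonneg_left ((star A).le_opNorm _) (norm_nonneg _)
        _ = _ := by ring
    · have h1 := h (A x)
      have e : (fun j => inner ℂ (star A (ψ j)) x • φ j) =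
          fun j => inner ℂ (ψ j) (A x) • φ j := by
        funext j
        rw [ContinuousLinearMap.star_eq_adjoint, ContinuousLinearMap.adjoint_inner_left]
      rw [e]
      exact h1
  · rintro K L ⟨ι₁, φ₁, ψ₁, hs₁, h₁⟩ ⟨ι₂, φ₂, ψ₂, hs₂, h₂⟩
    refine ⟨ι₁ ⊕ ι₂, Sum.elim φ₁ φ₂, Sum.elim ψ₁ ψ₂, ?_, fun x => ?_⟩
    · exact (HasSum.sum (f := fun j => ‖Sum.elim φ₁ φ₂ j‖ * ‖Sum.elim ψ₁ ψ₂ j‖)
        hs₁.hasSum hs₂.hasSum).summable
    · exact HasSum.sum (f := fun j => inner ℂ (Sum.elim ψ₁ ψ₂ j) x • Sum.elim φ₁ φ₂ j)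
        (h₁ x) (h₂ x)
  · rintro K ⟨ι, φ, ψ, hs, h⟩
    refine ⟨ι, ψ, φ, by simpa only [mul_comm] using hs, fun x => ?_⟩
    have h1 := (nuc_hasSum hs h).star.mapL (ContinuousLinearMap.apply ℂ E x)
    have e : (fun j => inner ℂ (φ j) x • ψ j) =
        fun j => (ContinuousLinearMap.apply ℂ E x) (star (rk (ψ j) (φ j))) := by
      funext j
      rw [star_rk]
      exact (rk_apply _ _ _).symm
    rw [e]
    exact h1
  · rintro K ⟨ι, φ, ψ, hs, h⟩
    exact isClosed_cpt.mem_of_tendsto (nuc_hasSum hs h) (Filter.Eventually.of_forall fun s =>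
      cpt_sum' s _ fun j _ => cpt_rk _ _)
  · intro K hK
    set W := LinearMap.range (K : E →ₗ[ℂ] E) with hW
    set b := stdOrthonormalBasis ℂ W with hb
    refine ⟨Fin (Module.finrank ℂ W), fun i => (b i : E), fun i => star K (b i : E),
      Summable.of_finite, fun x => ?_⟩
    have h1 := b.sum_repr' ⟨K x, LinearMap.mem_range_self (K : E →ₗ[ℂ] E) x⟩
    have h2 := congrArg (Subtype.val) h1
    rw [Submodule.coe_sum] at h2
    have h3 : K x = ∑ i, inner ℂ (star K (b i : E)) x • (b i : E) := by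
      rw [← show _ = K x from h2]
      refine Finset.sum_congr rfl fun i _ => ?_
      rw [ContinuousLinearMap.star_eq_adjoint, ContinuousLinearMap.adjoint_inner_left]
      rfl
    rw [h3]
    exact hasSum_fintype _

end Pool.Agent.W358.FKM
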